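import Mathlib

set_option autoImplicit false

open MeasureTheory Set
open scoped ENNReal

namespace H44.IC

variable {n : ℕ}

/-- `det A ≤ (tr A / n)^n` for positive semidefinite matrices -/
lemma det_le_trace (hn : 1 ≤ n) (A : Matrix (Fin n) (Fin n) ℝ) (hA : A.PosSemidef) :
    A.det ≤ (A.trace / n) ^ n := by
  have hH := hA.1
  have h1 : A.det = ∏ i, hH.eigenvalues i := by
    have := hH.det_eq_prod_eigenvalues
    simpa using this
  have h2 : A.trace = ∑ i, hH.eigenvalues i := by
    have := hH.trace_eq_sum_eigenvalues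
    simpa using this
  have hnn : ∀ i, 0 ≤ hH.eigenvalues i := fun i => hA.eigenvalues_nonneg i
  have hn0 : (n : ℝ) ≠ 0 := by positivity
  have h3 := Real.geom_mean_le_arith_mean_weighted Finset.univ (fun _ : Fin n => (1 / n : ℝ))
    (fun i => hH.eigenvalues i) (fun i _ => by positivity) (by simp [hn0]) (fun i _ => hnn i)
  rw [h1, h2]
  have h4 : (∏ i : Fin n, hH.eigenvalues i ^ (1 / (n : ℝ))) ^ n = ∏ i, hH.eigenvalues i := by
    rw [← Finset.prod_pow]
    apply Finset.prod_congr rfl
    intro i _
    rw [← Real.rpow_natCast, ← Real.rpow_mul (hnn i), one_div, inv_mul_cancel₀ hn0, Real.rpow_one]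
  rw [← h4]
  apply pow_le_pow_left₀ (Finset.prod_nonneg fun i _ => Real.rpow_nonneg (hnn i) _)
  refine h3.trans (le_of_eq ?_)
  rw [← Finset.mul_sum]
  ring

/-- the cube -/
def Qn (n : ℕ) : Set (Fin n → ℝ) := {x | ∀ i, |x i| ≤ 1}

lemma Qn_eq (n : ℕ) : Qn n = Set.pi univ fun _ : Fin n => Icc (-1 : ℝ) 1 := by
  ext x
  simp only [Qn, mem_ofPred_eq, mem_univ_pi, mem_Icc, abs_le]

lemma measurable_Qn (n : ℕ) : MeasurableSet (Qn n) := by
  rw [Qn_eq]
  exact MeasurableSet.univ_pi fun _ => measurableSet_Icc

lemma vol_Qn (n : ℕ) : volume.real (Qn n) = 2 ^ n := by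
  rw [Qn_eq, Measure.real, volume_pi, Measure.pi_pi]
  simp
  norm_num

lemma int_Qn (n : ℕ) (i : Fin n) : ∫ x in Qn n, x i ^ 2 = 2 ^ n / 3 := by
  have h1 : ∀ x : Fin n → ℝ, x i ^ 2 = ∏ j : Fin n, (if j = i then (fun t : ℝ => t ^ 2)
      else fun _ => 1) (x j) := by
    intro x
    rw [Finset.prod_eq_single i]
    · simp
    · intro j _ hj; simp [hj]
    · simp
  rw [Qn_eq, volume_pi, Measure.restrict_pi_pi]
  simp_rw [h1]
  rw [integral_fintype_prod_eq_prod (𝕜 := ℝ)
    (fun (j : Fin n) (t : ℝ) => (if j = i then (fun t : ℝ => t ^ 2) else fun _ => 1) t)]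
  have h2 : ∀ j : Fin n, (∫ t in Icc (-1 : ℝ) 1, (if j = i then (fun t : ℝ => t ^ 2)
      else fun _ => 1) t) = if j = i then 2 / 3 else 2 := by
    intro j
    by_cases hj : j = i
    · simp only [hj, if_true]
      rw [integral_Icc_eq_integral_Ioc, ← intervalIntegral.integral_of_le (by norm_num),
        integral_pow]
      norm_num
    · simp only [hj, if_false]
      rw [integral_Icc_eq_integral_Ioc, ← intervalIntegral.integral_of_le (by norm_num)]
      norm_num
  simp_rw [h2]
  rw [Finset.prod_ite, Finset.prod_const, Finset.prod_const]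
  have e1 : (Finset.univ.filter fun j : Fin n => j = i).card = 1 := by
    rw [Finset.filter_eq' Finset.univ i]; simp
  have e2 : (Finset.univ.filter fun j : Fin n => ¬ j = i).card = n - 1 := by
    rw [Finset.filter_not, Finset.card_sdiff_of_subset (Finset.filter_subset _ _), e1]
    simp
  rw [e1, e2]
  obtain ⟨m, rfl⟩ : ∃ m, n = m + 1 := ⟨n - 1, by have := i.pos; omega⟩
  simp only [Nat.add_sub_cancel, pow_succ]
  ring

lemma integrable_Qn {f : (Fin n → ℝ) → ℝ} (hf : Continuous f) {S : Set (Fin n → ℝ)}
    (hS : S ⊆ Qn n) : IntegrableOn f S := by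
  have h : IntegrableOn f (Set.pi univ fun _ : Fin n => Icc (-1 : ℝ) 1) :=
    hf.continuousOn.integrableOn_compact (isCompact_univ_pi fun _ => isCompact_Icc)
  rw [← Qn_eq] at h
  exact h.mono_set hS

/-- **the criterion inside the cube** -/
theorem inside (hn : 1 ≤ n) {K : Set (Fin n → ℝ)} (hK : MeasurableSet K) (hKQ : K ⊆ Qn n)
    (hV : 0 < volume.real K)
    (hcrit : ((n : ℝ) + 2) / 3 * volume.real (Qn n \ K) ≤ ∫ x in Qn n \ K, ∑ i, x i ^ 2) :
    (12 : ℝ) ^ n * (Matrix.of fun i j : Fin n => ∫ x in K, x i * x j).det ≤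
      volume.real K ^ (n + 2) := by
  set V := volume.real K with hVdef
  set M : Matrix (Fin n) (Fin n) ℝ := Matrix.of fun i j : Fin n => ∫ x in K, x i * x j with hM
  have hn0 : (0 : ℝ) < n := by positivity
  have hQt : volume (Qn n) ≠ ∞ := by
    rw [Qn_eq, volume_pi, Measure.pi_pi]
    simp
  -- positive semidefinite
  have hPSD : M.PosSemidef := by
    refine Matrix.PosSemidef.of_dotProduct_mulVec_nonneg ?_ ?_
    · ext i j
      simp only [hM, Matrix.conjTranspose_apply, Matrix.of_apply, star_trivial]
      apply integral_congr_ae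
      filter_upwards with x
      ring
    · intro v
      have h1 : star v ⬝ᵥ M.mulVec v = ∫ x in K, (∑ i, v i * x i) ^ 2 := by
        have h2 : ∀ x : Fin n → ℝ, (∑ i, v i * x i) ^ 2 = ∑ i, ∑ j, v i * v j * (x i * x j) := by
          intro x
          rw [pow_two, Finset.sum_mul_sum]
          apply Finset.sum_congr rfl; intro i _
          apply Finset.sum_congr rfl; intro j _
          ring
        simp_rw [h2]
        rw [integral_finsetSum]
        · simp only [dotProduct, Matrix.mulVec, star_trivial]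
          apply Finset.sum_congr rfl; intro i _
          rw [integral_finsetSum, Finset.mul_sum]
          · apply Finset.sum_congr rfl; intro j _
            rw [integral_const_mul]
            simp only [hM, Matrix.of_apply]
            ring
          · intro j _
            exact integrable_Qn (by fun_prop) hKQ
        · intro i _
          exact integrable_Qn (by fun_prop) hKQ
      rw [h1]
      exact integral_nonneg fun x => sq_nonneg _
  have hdet := det_le_trace hn M hPSD
  have htr0 : 0 ≤ M.trace := hPSD.trace_nonneg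
  have htr : M.trace = ∫ x in K, ∑ i, x i ^ 2 := by
    rw [integral_finsetSum]
    · simp only [Matrix.trace, Matrix.diag, hM, Matrix.of_apply]
      apply Finset.sum_congr rfl; intro i _
      apply integral_congr_ae
      filter_upwards with x
      ring
    · intro i _
      exact integrable_Qn (by fun_prop) hKQ
  have hsplit : (∫ x in K, ∑ i, x i ^ 2) + ∫ x in Qn n \ K, ∑ i, x i ^ 2 =
      ∫ x in Qn n, ∑ i, x i ^ 2 := by
    rw [← setIntegral_union disjoint_sdiff_right ((measurable_Qn n).diff hK)
      (integrable_Qn (by fun_prop) hKQ) (integrable_Qn (by fun_prop) sdiff_subset),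
      union_sdiff_cancel hKQ]
  have hQ : ∫ x in Qn n, ∑ i, x i ^ 2 = n * (2 ^ n / 3) := by
    rw [integral_finsetSum]
    · simp_rw [int_Qn]
      simp
    · intro i _
      exact integrable_Qn (by fun_prop) subset_rfl
  have hvol : volume.real (Qn n \ K) = 2 ^ n - V := by
    rw [measureReal_sdiff hKQ hK, vol_Qn]
  have hVle : V ≤ 2 ^ n := by
    rw [← vol_Qn n]
    exact measureReal_mono hKQ hQt
  set s : ℝ := 2 ^ n / V with hs
  have hs1 : 1 ≤ s := by rw [hs, le_div_iff₀ hV]; linarith
  have hsV : s * V = 2 ^ n := by rw [hs]; field_simp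
  set b : ℝ := 1 + (2 / n) * (1 - s) with hb
  have htb : M.trace / n ≤ (V / 3) * b := by
    rw [hvol] at hcrit
    rw [div_le_iff₀ hn0]
    have h1 : V / 3 * b * n = ((n + 2) * V - 2 * 2 ^ n) / 3 := by
      rw [hb, ← hsV]; field_simp; ring
    rw [h1, htr]
    linarith
  have hb0 : 0 ≤ b := by
    have h1 : 0 ≤ (V / 3) * b := le_trans (by positivity) htb
    by_contra hneg
    push Not at hneg
    nlinarith
  have hbn : b ^ n ≤ Real.exp (2 * (1 - s)) := by
    calc b ^ n ≤ Real.exp ((2 / n) * (1 - s)) ^ n := by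
          apply pow_le_pow_left₀ hb0
          rw [hb, add_comm]
          exact Real.add_one_le_exp _
      _ = Real.exp (2 * (1 - s)) := by
          rw [← Real.exp_nat_mul]
          congr 1
          field_simp
  have hexp : Real.exp (2 * (1 - s)) ≤ 1 / s ^ 2 := by
    have h1 : s ≤ Real.exp (s - 1) := by
      have := Real.add_one_le_exp (s - 1)
      linarith
    have h2 : s ^ 2 ≤ Real.exp (2 * (s - 1)) := by
      calc s ^ 2 ≤ Real.exp (s - 1) ^ 2 := by gcongr
        _ = Real.exp (2 * (s - 1)) := by rw [← Real.exp_nat_mul]; norm_num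
    have h3 : Real.exp (2 * (1 - s)) = 1 / Real.exp (2 * (s - 1)) := by
      rw [one_div, ← Real.exp_neg]; congr 1; ring
    rw [h3]
    exact one_div_le_one_div_of_le (by positivity) h2
  calc (12 : ℝ) ^ n * M.det ≤ 12 ^ n * (M.trace / n) ^ n := by gcongr
    _ ≤ 12 ^ n * ((V / 3) * b) ^ n := by
        gcongr
    _ = (4 * V) ^ n * b ^ n := by
        rw [← mul_pow, ← mul_pow]; congr 1; ring
    _ ≤ (4 * V) ^ n * (1 / s ^ 2) := by
        gcongr
        exact hbn.trans hexp
    _ = V ^ (n + 2) := by
        have h4 : (4 : ℝ) ^ n = (s * V) ^ 2 := by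
          rw [hsV, ← pow_mul, mul_comm, pow_mul]; norm_num
        rw [mul_pow, h4]
        field_simp
        ring

/-- all sets between the cube and its intersection with a ball of nearly half its volume -/
theorem between (hn : 1 ≤ n) {K : Set (Fin n → ℝ)} (hK : MeasurableSet K) (hKQ : K ⊆ Qn n)
    (hB : ∀ x ∈ Qn n, ∑ i, x i ^ 2 < ((n : ℝ) + 2) / 3 → x ∈ K) :
    (12 : ℝ) ^ n * (Matrix.of fun i j : Fin n => ∫ x in K, x i * x j).det ≤
      volume.real K ^ (n + 2) := by
  have hQt : volume (Qn n) ≠ ∞ := by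
    rw [Qn_eq, volume_pi, Measure.pi_pi]
    simp
  have hn0 : (0 : ℝ) < n := by positivity
  apply inside hn hK hKQ
  · -- a small cube lies in `K`
    have h1 : Set.pi univ (fun _ : Fin n => Icc (-(1 / 2 : ℝ)) (1 / 2)) ⊆ K := by
      intro x hx
      have hx' : ∀ i, |x i| ≤ 1 / 2 := fun i => abs_le.2 (hx i (mem_univ i))
      apply hB
      · intro i
        exact (hx' i).trans (by norm_num)
      · calc ∑ i, x i ^ 2 ≤ ∑ _i : Fin n, (1 / 4 : ℝ) := by
              apply Finset.sum_le_sum
              intro i _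
              have := hx' i
              rw [← sq_abs]
              nlinarith [abs_nonneg (x i)]
          _ = n / 4 := by simp; ring
          _ < _ := by linarith
    have h2 : volume.real (Set.pi univ (fun _ : Fin n => Icc (-(1 / 2 : ℝ)) (1 / 2))) = 1 := by
      rw [Measure.real, volume_pi, Measure.pi_pi]
      simp
      norm_num
    have hKt : volume K ≠ ∞ :=
      ((measure_mono hKQ).trans_lt (lt_top_iff_ne_top.2 hQt)).ne
    have h3 := measureReal_mono h1 hKt
    rw [h2] at h3
    linarith
  · have hm : MeasurableSet (Qn n \ K) := (measurable_Qn n).diff hK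
    have hmt : volume (Qn n \ K) ≠ ∞ :=
      ((measure_mono sdiff_subset).trans_lt (lt_top_iff_ne_top.2 hQt)).ne
    calc ((n : ℝ) + 2) / 3 * volume.real (Qn n \ K) = ∫ _ in Qn n \ K, ((n : ℝ) + 2) / 3 := by
          rw [setIntegral_const, smul_eq_mul, mul_comm]
      _ ≤ ∫ x in Qn n \ K, ∑ i, x i ^ 2 := by
          apply setIntegral_mono_on
          · exact integrableOn_const hmt
          · exact integrable_Qn (by fun_prop) sdiff_subset
          · exact hm
          · intro x hx
            by_contra hlt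
            push Not at hlt
            exact hx.2 (hB x hx.1 hlt)

end H44.IC
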