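import Pool.Graph.R_seed8.R476.LI.Main
import Pool.Graph.R_pool_sql_team_seeded_707910d6.T2H16.LPR.Main

set_option autoImplicit false

open MeasureTheory Set
open scoped ENNReal

namespace H44.IC

open Pool.Agent.R476.LI
open Pool.Agent.TH589.FF (E cube supportLp mahlerLp)

variable {n : ℕ}

theorem near (hn : 2 ≤ n) {K : Set (E n)} (hK : SymBody K) (T : E n ≃ₗ[ℝ] E n)
    (h1 : T '' cube n ⊆ K)
    (h2 : K ⊆ (fun x => (1 + 1 / (25201 * (n : ℝ) ^ 2)) • x) '' (T '' cube n)) :
    12 * LK K ^ 2 ≤ 1 := by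
  apply part_f hn hK
  intro δ hδ
  have hn0 : (0 : ℝ) < n := by positivity
  refine ⟨min (δ / 2) (1 / 25200), by positivity, lt_of_le_of_lt (min_le_left _ _) (by linarith), ?_⟩
  set p : ℝ := min (δ / 2) (1 / 25200) with hp
  have hp0 : 0 < p := by positivity
  have hp1 : p ≤ 1 / 25200 := min_le_right _ _
  have hcube : cube n = Pool.Agent.W678.LM.cubeE n := by
    ext x
    simp only [cube, Pool.Agent.W678.LM.cubeE, Set.mem_ofPred_eq, EuclideanSpace.inner_single_right]
    simp
  have hd : 1 / (25201 * (n : ℝ) ^ 2) ≤ 1 / (25200 * (1 + p) * (n : ℝ) ^ 2) := by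
    apply one_div_le_one_div_of_le (by positivity)
    have : 25200 * (1 + p) ≤ 25201 := by linarith
    gcongr
  have h3 : K ⊆ (fun x => (1 + 1 / (25200 * (1 + p) * (n : ℝ) ^ 2)) • x) '' (T '' cube n) := by
    intro x hx
    obtain ⟨_, ⟨y, hy, rfl⟩, rfl⟩ := h2 hx
    set a : ℝ := 1 / (25201 * (n : ℝ) ^ 2)
    set b : ℝ := 1 / (25200 * (1 + p) * (n : ℝ) ^ 2)
    have ha : 0 < a := by positivity
    have hb : 0 < 1 + b := by linarith
    refine ⟨T (((1 + a) / (1 + b)) • y), ⟨_, ?_, rfl⟩, ?_⟩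
    · intro i
      have h4 : (((1 + a) / (1 + b)) • y) i = ((1 + a) / (1 + b)) * y i := by simp
      rw [h4, abs_mul, abs_of_pos (by positivity)]
      have h5 : (1 + a) / (1 + b) ≤ 1 := by rw [div_le_one hb]; linarith
      calc (1 + a) / (1 + b) * |y i| ≤ 1 * 1 := by
            apply mul_le_mul h5 (hy i) (abs_nonneg _) (by norm_num)
        _ = 1 := by norm_num
    · show (1 + b) • T (((1 + a) / (1 + b)) • y) = (1 + a) • T y
      rw [map_smul, smul_smul, mul_div_cancel₀ _ hb.ne']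
  rw [hcube] at h1 h3
  have h4 := (Pool.Agent.T2H16.LPR.local_min' hn hp0 hK.cpt hK.conv hK.symm T h1 h3).1
  rw [← hcube] at h4
  exact h4

/-- from the isotropic constant to determinants -/
lemma det_form (hn : 1 ≤ n) {K : Set (E n)} (hK : SymBody K) (h : 12 * LK K ^ 2 ≤ 1) :
    (12 : ℝ) ^ n * (Matrix.of fun i j : Fin n => ∫ x in K, x i * x j).det ≤
      volume.real K ^ (n + 2) := by
  have hV := hK.W_pos
  have hdet := det_pos hK
  have h1 := LK_pow hn hK
  have hL := LK_pos hK
  have h2 : (12 * LK K ^ 2) ^ n ≤ 1 := pow_le_one₀ (by positivity) h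
  have h3 : LK K ^ n = Real.sqrt (covMat K).det / volume.real K := by
    have h4 : AK K = volume.real K / Real.sqrt (covMat K).det := rfl
    have h5 := Real.sqrt_pos.2 hdet
    rw [h4] at h1
    field_simp at h1
    field_simp
    linarith
  have h4 : (12 * LK K ^ 2) ^ n = 12 ^ n * ((covMat K).det / volume.real K ^ 2) := by
    rw [mul_pow, ← pow_mul, mul_comm 2 n, pow_mul, h3, div_pow, Real.sq_sqrt hdet.le]
  have h5 : (Matrix.of fun i j : Fin n => ∫ x in K, x i * x j) = volume.real K • covMat K := by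
    ext i j
    simp only [covMat, Matrix.of_apply, Matrix.smul_apply, smul_eq_mul]
    field_simp
  rw [h5, Matrix.det_smul, Fintype.card_fin]
  rw [h4] at h2
  have h6 : 12 ^ n * (covMat K).det ≤ volume.real K ^ 2 := by
    have h7 : 12 ^ n * ((covMat K).det / volume.real K ^ 2) =
        (12 ^ n * (covMat K).det) / volume.real K ^ 2 := by ring
    rw [h7, div_le_one (by positivity)] at h2
    exact h2
  calc (12 : ℝ) ^ n * (volume.real K ^ n * (covMat K).det)
      = volume.real K ^ n * (12 ^ n * (covMat K).det) := by ring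
    _ ≤ volume.real K ^ n * volume.real K ^ 2 := by gcongr
    _ = _ := by ring

/-- transfer to coordinates -/
theorem near_coord (hn : 2 ≤ n) {K : Set (Fin n → ℝ)} (hK : IsCompact K) (hc : Convex ℝ K)
    (hi : (interior K).Nonempty) (hs : ∀ x ∈ K, -x ∈ K)
    (T : (Fin n → ℝ) ≃ₗ[ℝ] (Fin n → ℝ))
    (h1 : ∀ x : Fin n → ℝ, (∀ i, |x i| ≤ 1) → T x ∈ K)
    (h2 : ∀ x ∈ K, ∃ y : Fin n → ℝ, (∀ i, |y i| ≤ 1) ∧ x = (1 + 1 / (25201 * (n : ℝ) ^ 2)) • T y) :
    (12 : ℝ) ^ n * (Matrix.of fun i j : Fin n => ∫ x in K, x i * x j).det ≤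
      (volume K).toReal ^ (n + 2) := by
  set e : E n ≃L[ℝ] (Fin n → ℝ) := PiLp.continuousLinearEquiv 2 ℝ (fun _ : Fin n => ℝ) with he
  have hea : ∀ x : E n, e x = x.ofLp := fun x => rfl
  set K' : Set (E n) := e ⁻¹' K with hK'
  have hSB : SymBody K' := by
    refine ⟨?_, ?_, ?_, ?_⟩
    · exact e.toHomeomorph.isCompact_preimage.2 hK
    · exact hc.linear_preimage e.toLinearEquiv.toLinearMap
    · obtain ⟨z, hz⟩ := hi
      refine ⟨e.symm z, ?_⟩
      have h3 : e ⁻¹' (interior K) ⊆ interior K' :=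
        preimage_interior_subset_interior_preimage e.continuous
      apply h3
      show e (e.symm z) ∈ interior K
      rwa [e.apply_symm_apply]
    · intro x hx
      show e (-x) ∈ K
      rw [map_neg]
      exact hs _ hx
  set T' : E n ≃ₗ[ℝ] E n := (e.toLinearEquiv.trans T).trans e.toLinearEquiv.symm with hT'
  have hT'a : ∀ x : E n, e (T' x) = T (e x) := by
    intro x
    show e (e.symm (T (e x))) = T (e x)
    exact e.apply_symm_apply _
  have h3 : T' '' cube n ⊆ K' := by
    rintro _ ⟨x, hx, rfl⟩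
    show e (T' x) ∈ K
    rw [hT'a]
    exact h1 _ hx
  have h4 : K' ⊆ (fun x => (1 + 1 / (25201 * (n : ℝ) ^ 2)) • x) '' (T' '' cube n) := by
    intro x hx
    obtain ⟨y, hy, hxy⟩ := h2 (e x) hx
    refine ⟨T' (e.symm y), ⟨_, ?_, rfl⟩, ?_⟩
    · intro i
      have : (e.symm y) i = y i := rfl
      rw [this]
      exact hy i
    · apply e.injective
      show e ((1 + 1 / (25201 * (n : ℝ) ^ 2)) • T' (e.symm y)) = e x
      rw [map_smul, hT'a, e.apply_symm_apply, hxy]
  have h5 := det_form (by omega) hSB (near hn hSB T' h3 h4)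
  have hmp := PiLp.volume_preserving_ofLp (Fin n)
  have hme : MeasurableEmbedding (@WithLp.ofLp 2 (Fin n → ℝ)) :=
    (MeasurableEquiv.toLp 2 (Fin n → ℝ)).symm.measurableEmbedding
  have h6 : volume.real K' = (volume K).toReal := by
    have : volume K' = volume K := hmp.measure_preimage_emb hme K
    rw [Measure.real, this]
  have h7 : (Matrix.of fun i j : Fin n => ∫ x in K', x i * x j) =
      Matrix.of fun i j : Fin n => ∫ x in K, x i * x j := by
    ext i j
    simp only [Matrix.of_apply]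
    exact hmp.setIntegral_preimage_emb hme (fun x : Fin n → ℝ => x i * x j) K
  rw [h6, h7] at h5
  exact h5

end H44.IC
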