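import Pool.Agent.H44.IC.Near
import Pool.Agent.H44.IC.Inside

/-!
# The cube and the isotropic constant

For a symmetric convex body `K` of `ℝⁿ` the inequality `|K|² / det Cov(K) ≥ 12ⁿ` reads
`12ⁿ det (∫_K x_i x_j dx) ≤ |K|^(n+2)`.

1. The cube is a local maximiser of the isotropic constant in every dimension: the inequality holds
   for all symmetric convex bodies whose Banach-Mazur distance from the cube is at most
   `1 + 1 / (25201 n²)`.
2. It holds for every measurable subset `K` of the cube `Q = [-1,1]ⁿ` such that the mean of `|x|²` on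
   the missing part `Q ∖ K` is at least `(n + 2) / 3`.
3. In particular it holds for all bodies between `Q ∩ √((n+2)/3) B₂ⁿ` and `Q`; such a body may miss
   a fixed proportion of the volume of the cube.
-/

set_option autoImplicit false

open MeasureTheory Set

namespace Pool.Agent.H44.IC.WithdrawnNearCube

/-- the cube `[-1, 1]ⁿ` -/
def cube (n : ℕ) : Set (Fin n → ℝ) := {x | ∀ i, |x i| ≤ 1}

/-- the matrix `∫_K x_i x_j dx` of the second moments (`|K| Cov(K)` for a symmetric body) -/
noncomputable def moments {n : ℕ} (K : Set (Fin n → ℝ)) : Matrix (Fin n) (Fin n) ℝ :=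
  Matrix.of fun i j => ∫ x in K, x i * x j

/-- the inequality `|K|² / det Cov(K) ≥ 12ⁿ`, i.e. `12ⁿ det (∫_K x_i x_j) ≤ |K|^(n+2)` -/
def CubeBound {n : ℕ} (K : Set (Fin n → ℝ)) : Prop :=
  (12 : ℝ) ^ n * (moments K).det ≤ volume.real K ^ (n + 2)

/-- **Local maximality of the cube, and a criterion inside the cube.** -/
theorem result (n : ℕ) (hn : 2 ≤ n) :
    -- (1) all symmetric convex bodies near the cube
    (∀ K : Set (Fin n → ℝ), Convex ℝ K → IsCompact K → (interior K).Nonempty →
      (∀ x ∈ K, -x ∈ K) →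
      ∀ T : (Fin n → ℝ) ≃ₗ[ℝ] (Fin n → ℝ), T '' cube n ⊆ K →
      K ⊆ (fun x => (1 + 1 / (25201 * (n : ℝ) ^ 2)) • x) '' (T '' cube n) → CubeBound K) ∧
    -- (2) a criterion for subsets of the cube
    (∀ K : Set (Fin n → ℝ), MeasurableSet K → K ⊆ cube n → 0 < volume.real K →
      ((n : ℝ) + 2) / 3 * volume.real (cube n \ K) ≤ ∫ x in cube n \ K, ∑ i, x i ^ 2 →
      CubeBound K) ∧
    -- (3) all bodies between the cube and its intersection with a ball
    (∀ K : Set (Fin n → ℝ), MeasurableSet K → K ⊆ cube n →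
      (∀ x ∈ cube n, ∑ i, x i ^ 2 < ((n : ℝ) + 2) / 3 → x ∈ K) → CubeBound K) := by
  refine ⟨?_, ?_, ?_⟩
  · intro K hc hK hi hs T h1 h2
    apply H44.IC.near_coord hn hK hc hi hs T
    · intro x hx
      exact h1 ⟨x, hx, rfl⟩
    · intro x hx
      obtain ⟨_, ⟨y, hy, rfl⟩, h⟩ := h2 hx
      exact ⟨y, hy, h.symm⟩
  · intro K hK hKQ hV h
    exact H44.IC.inside (by omega) hK hKQ hV h
  · intro K hK hKQ h
    exact H44.IC.between (by omega) hK hKQ h

end Pool.Agent.H44.IC.WithdrawnNearCube
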